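import Pool.Agent.Lib_helper8.Berg.Main

/-!
A functorial realisation of conical commutative monoids as nonstable K-theory monoids.

Definitions used in the statement: rings without unit requirement (`Rng`), conical commutative
monoids (`CMonC`), idempotent matrices (`Idem`), their equivalence (`Idem.Equiv`), the monoid
`VMon R` and the functor `V`.
-/

namespace Pool.Agent.Results.MP_85b181_al.FunctorialRealization

open CategoryTheory

universe u

/-- A ring, associative and not necessarily with a unit. -/
structure Rng : Type (u + 1) where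
  carrier : Type u
  [str : NonUnitalRing carrier]

attribute [instance] Rng.str

/-- The category of rings; morphisms are ring homomorphisms, not required to preserve units. -/
instance : Category Rng.{u} where
  Hom R S := R.carrier →ₙ+* S.carrier
  id R := NonUnitalRingHom.id R.carrier
  comp f g := g.comp f

/-- A conical commutative monoid. -/
structure CMonC : Type (u + 1) where
  carrier : Type u
  [str : AddCommMonoid carrier]
  conical : ∀ x y : carrier, x + y = 0 → x = 0 ∧ y = 0

attribute [instance] CMonC.str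

/-- The category of conical commutative monoids with all monoid homomorphisms. -/
instance : Category CMonC.{u} where
  Hom M N := M.carrier →+ N.carrier
  id M := AddMonoidHom.id M.carrier
  comp f g := g.comp f

/-- The upper left corner embedding of `n × n` matrices in `N × N` matrices. -/
def corner {R : Type u} [NonUnitalRing R] {n N : ℕ} (_h : n ≤ N)
    (e : Matrix (Fin n) (Fin n) R) : Matrix (Fin N) (Fin N) R :=
  Matrix.of fun i j => if h : i.1 < n ∧ j.1 < n then e ⟨i.1, h.1⟩ ⟨j.1, h.2⟩ else 0

/-- An idempotent matrix over `R`, of some finite size. -/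
structure Idem (R : Type u) [NonUnitalRing R] : Type u where
  size : ℕ
  mat : Matrix (Fin size) (Fin size) R
  idem : mat * mat = mat

/-- Equivalence of idempotent matrices: `e = x y` and `f = y x` for some `x, y` in the union of
the matrix rings, that is for square matrices `x, y` of a common size `N`. -/
def Idem.Equiv {R : Type u} [NonUnitalRing R] (e f : Idem R) : Prop :=
  ∃ (N : ℕ) (he : e.size ≤ N) (hf : f.size ≤ N) (x y : Matrix (Fin N) (Fin N) R),
    corner he e.mat = x * y ∧ corner hf f.mat = y * x

/-- The block diagonal sum of two idempotent matrices. -/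
def Idem.sum {R : Type u} [NonUnitalRing R] (e f : Idem R) : Idem R where
  size := e.size + f.size
  mat := Matrix.reindex finSumFinEquiv finSumFinEquiv (Matrix.fromBlocks e.mat 0 0 f.mat)
  idem := by
    rw [Matrix.reindex_apply, Matrix.submatrix_mul_equiv, Matrix.fromBlocks_multiply]
    simp [e.idem, f.idem]

/-- The image of an idempotent matrix under a ring homomorphism, entrywise. -/
def Idem.map {R S : Type u} [NonUnitalRing R] [NonUnitalRing S] (φ : R →ₙ+* S) (e : Idem R) :
    Idem S where
  size := e.size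
  mat := e.mat.map φ
  idem := by
    ext i j
    have := congrFun (congrFun e.idem i) j
    rw [Matrix.mul_apply] at this
    rw [Matrix.mul_apply, Matrix.map_apply, ← this, map_sum]
    simp

/-- The zero idempotent. -/
def Idem.zero (R : Type u) [NonUnitalRing R] : Idem R where
  size := 0
  mat := 0
  idem := by simp

section Rect

variable {R : Type*} [NonUnitalRing R]

/-- Equivalence of idempotents via rectangular matrices. -/
def RectEq {m n : Type*} [Fintype m] [Fintype n] (e : Matrix m m R) (f : Matrix n n R) : Prop :=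
  ∃ (x : Matrix m n R) (y : Matrix n m R), x * y = e ∧ y * x = f

variable {l m n : Type*} [Fintype l] [Fintype m] [Fintype n]

theorem RectEq.refl {e : Matrix m m R} (he : e * e = e) : RectEq e e := ⟨e, e, he, he⟩

omit [Fintype l] [Fintype n] in
theorem map_mul_map {S : Type*} [NonUnitalRing S] (φ : R →ₙ+* S) (x : Matrix l m R)
    (y : Matrix m n R) : x.map φ * y.map φ = (x * y).map φ := by
  ext i j
  rw [Matrix.map_apply, Matrix.mul_apply, Matrix.mul_apply, map_sum]
  simp

theorem RectEq.map {S : Type*} [NonUnitalRing S] (φ : R →ₙ+* S) {e : Matrix m m R}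
    {f : Matrix n n R} (h : RectEq e f) : RectEq (e.map φ) (f.map φ) := by
  obtain ⟨x, y, h1, h2⟩ := h
  exact ⟨x.map φ, y.map φ, by rw [map_mul_map, h1], by rw [map_mul_map, h2]⟩

theorem RectEq.symm {e : Matrix m m R} {f : Matrix n n R} (h : RectEq e f) : RectEq f e := by
  obtain ⟨x, y, h1, h2⟩ := h
  exact ⟨y, x, h2, h1⟩

theorem RectEq.trans {e : Matrix l l R} {f : Matrix m m R} {g : Matrix n n R}
    (he : e * e = e) (hg : g * g = g) (h : RectEq e f) (h' : RectEq f g) : RectEq e g := by
  obtain ⟨x, y, h1, h2⟩ := h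
  obtain ⟨z, w, h3, h4⟩ := h'
  refine ⟨x * z, w * y, ?_, ?_⟩
  · calc x * z * (w * y) = x * (z * w) * y := by simp only [Matrix.mul_assoc]
      _ = x * (y * x) * y := by rw [h3, h2]
      _ = (x * y) * (x * y) := by simp only [Matrix.mul_assoc]
      _ = e := by rw [h1, he]
  · calc w * y * (x * z) = w * (y * x) * z := by simp only [Matrix.mul_assoc]
      _ = w * (z * w) * z := by rw [h2, h3]
      _ = (w * z) * (w * z) := by simp only [Matrix.mul_assoc]
      _ = g := by rw [h4, hg]

theorem RectEq.reindex {e : Matrix m m R} (he : e * e = e) (σ : m ≃ n) :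
    RectEq e (Matrix.reindex σ σ e) := by
  refine ⟨e.submatrix id σ.symm, e.submatrix σ.symm id, ?_, ?_⟩
  · ext i j
    rw [Matrix.mul_apply]
    conv_rhs => rw [← he, Matrix.mul_apply]
    exact Equiv.sum_comp σ.symm (fun t => e i t * e t j)
  · ext i j
    rw [Matrix.mul_apply]
    conv_rhs => rw [Matrix.reindex_apply, Matrix.submatrix_apply, ← he, Matrix.mul_apply]
    rfl

theorem RectEq.fromBlocks {m' n' : Type*} [Fintype m'] [Fintype n'] {e : Matrix m m R}
    {f : Matrix n n R} {e' : Matrix m' m' R} {f' : Matrix n' n' R} (h : RectEq e f)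
    (h' : RectEq e' f') :
    RectEq (Matrix.fromBlocks e 0 0 e') (Matrix.fromBlocks f 0 0 f') := by
  obtain ⟨x, y, h1, h2⟩ := h
  obtain ⟨x', y', h1', h2'⟩ := h'
  refine ⟨Matrix.fromBlocks x 0 0 x', Matrix.fromBlocks y 0 0 y', ?_, ?_⟩
  · rw [Matrix.fromBlocks_multiply]
    simp [h1, h1']
  · rw [Matrix.fromBlocks_multiply]
    simp [h2, h2']

/-- The corner embedding of rectangular matrices. -/
def rcorner {n m N : ℕ} (x : Matrix (Fin n) (Fin m) R) : Matrix (Fin N) (Fin N) R :=
  Matrix.of fun i j => if h : i.1 < n ∧ j.1 < m then x ⟨i.1, h.1⟩ ⟨j.1, h.2⟩ else 0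

theorem rcorner_mul {a b c N : ℕ} (hb : b ≤ N) (x : Matrix (Fin a) (Fin b) R)
    (y : Matrix (Fin b) (Fin c) R) :
    (rcorner x : Matrix (Fin N) (Fin N) R) * rcorner y = rcorner (x * y) := by
  ext i j
  rw [Matrix.mul_apply]
  unfold rcorner
  simp only [Matrix.of_apply]
  by_cases hi : i.1 < a
  · by_cases hj : j.1 < c
    · rw [dif_pos ⟨hi, hj⟩, Matrix.mul_apply]
      have h1 : ∀ t : Fin N, ((if h : i.1 < a ∧ t.1 < b then x ⟨i.1, h.1⟩ ⟨t.1, h.2⟩ else 0)
          * (if h : t.1 < b ∧ j.1 < c then y ⟨t.1, h.1⟩ ⟨j.1, h.2⟩ else 0))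
          = if h : t.1 < b then x ⟨i.1, hi⟩ ⟨t.1, h⟩ * y ⟨t.1, h⟩ ⟨j.1, hj⟩ else 0 := by
        intro t
        by_cases ht : t.1 < b
        · rw [dif_pos ⟨hi, ht⟩, dif_pos ⟨ht, hj⟩, dif_pos ht]
        · rw [dif_neg (fun h => ht h.2), dif_neg ht, zero_mul]
      rw [Finset.sum_congr rfl fun t _ => h1 t]
      symm
      refine Finset.sum_bij_ne_zero (fun t _ _ => Fin.castLE hb t) (fun t _ _ => Finset.mem_univ _)
        ?_ ?_ ?_
      · intro t _ _ t' _ _ h
        exact Fin.castLE_injective hb h
      · intro t _ ht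
        by_cases h : t.1 < b
        · refine ⟨⟨t.1, h⟩, Finset.mem_univ _, ?_, ?_⟩
          · rw [dif_pos h] at ht; exact ht
          · rfl
        · rw [dif_neg h] at ht; exact absurd rfl ht
      · intro t _ _
        rw [dif_pos (show (Fin.castLE hb t).1 < b from t.2)]
        rfl
    · rw [dif_neg (fun h => hj h.2)]
      refine Finset.sum_eq_zero fun t _ => ?_
      rw [dif_neg (c := t.1 < b ∧ j.1 < c) (fun h => hj h.2), mul_zero]
  · rw [dif_neg (fun h => hi h.1)]
    refine Finset.sum_eq_zero fun t _ => ?_
    rw [dif_neg (c := i.1 < a ∧ t.1 < b) (fun h => hi h.1), zero_mul]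

theorem rcorner_restrict {a b N : ℕ} (ha : a ≤ N) (hb : b ≤ N) (x : Matrix (Fin a) (Fin b) R) :
    (rcorner x : Matrix (Fin N) (Fin N) R).submatrix (Fin.castLE ha) (Fin.castLE hb) = x := by
  ext i j
  rw [Matrix.submatrix_apply]
  unfold rcorner
  simp only [Matrix.of_apply]
  rw [dif_pos (show (Fin.castLE ha i).1 < a ∧ (Fin.castLE hb j).1 < b from ⟨i.2, j.2⟩)]
  rfl

end Rect

section Equiv

variable {R : Type u} [NonUnitalRing R]

theorem corner_eq_rcorner {n N : ℕ} (h : n ≤ N) (e : Matrix (Fin n) (Fin n) R) :
    corner h e = rcorner e := rfl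

theorem Idem.equiv_iff (e f : Idem R) : Idem.Equiv e f ↔ RectEq e.mat f.mat := by
  constructor
  · rintro ⟨N, he, hf, x, y, h1, h2⟩
    rw [corner_eq_rcorner] at h1 h2
    set E : Matrix (Fin N) (Fin N) R := rcorner e.mat with hE
    set G : Matrix (Fin N) (Fin N) R := rcorner f.mat with hG
    have hEE : E * E = E := by rw [hE, rcorner_mul he, e.idem]
    have hGG : G * G = G := by rw [hG, rcorner_mul hf, f.idem]
    -- rows and columns
    have hErow : ∀ (z : Matrix (Fin N) (Fin N) R) (i j : Fin N), ¬ i.1 < e.size →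
        (E * z) i j = 0 := by
      intro z i j hi
      rw [Matrix.mul_apply]
      refine Finset.sum_eq_zero fun t _ => ?_
      have : E i t = 0 := by
        rw [hE]; unfold rcorner
        simp only [Matrix.of_apply]
        rw [dif_neg (fun h => hi h.1)]
      rw [this, zero_mul]
    have hGrow : ∀ (z : Matrix (Fin N) (Fin N) R) (i j : Fin N), ¬ i.1 < f.size →
        (G * z) i j = 0 := by
      intro z i j hi
      rw [Matrix.mul_apply]
      refine Finset.sum_eq_zero fun t _ => ?_
      have : G i t = 0 := by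
        rw [hG]; unfold rcorner
        simp only [Matrix.of_apply]
        rw [dif_neg (fun h => hi h.1)]
      rw [this, zero_mul]
    have hEcol : ∀ (z : Matrix (Fin N) (Fin N) R) (i j : Fin N), ¬ j.1 < e.size →
        (z * E) i j = 0 := by
      intro z i j hj
      rw [Matrix.mul_apply]
      refine Finset.sum_eq_zero fun t _ => ?_
      have : E t j = 0 := by
        rw [hE]; unfold rcorner
        simp only [Matrix.of_apply]
        rw [dif_neg (fun h => hj h.2)]
      rw [this, mul_zero]
    have hGcol : ∀ (z : Matrix (Fin N) (Fin N) R) (i j : Fin N), ¬ j.1 < f.size →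
        (z * G) i j = 0 := by
      intro z i j hj
      rw [Matrix.mul_apply]
      refine Finset.sum_eq_zero fun t _ => ?_
      have : G t j = 0 := by
        rw [hG]; unfold rcorner
        simp only [Matrix.of_apply]
        rw [dif_neg (fun h => hj h.2)]
      rw [this, mul_zero]
    let X := E * x * G
    let Y := G * y * E
    have hXY : X * Y = E := by
      calc E * x * G * (G * y * E) = E * x * (G * G) * y * E := by simp only [Matrix.mul_assoc]
        _ = E * x * (y * x) * y * E := by rw [hGG, h2]
        _ = E * ((x * y) * (x * y)) * E := by simp only [Matrix.mul_assoc]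
        _ = E := by rw [← h1, hEE, hEE, hEE]
    have hYX : Y * X = G := by
      calc G * y * E * (E * x * G) = G * y * (E * E) * x * G := by simp only [Matrix.mul_assoc]
        _ = G * y * (x * y) * x * G := by rw [hEE, h1]
        _ = G * ((y * x) * (y * x)) * G := by simp only [Matrix.mul_assoc]
        _ = G := by rw [← h2, hGG, hGG, hGG]
    let x' : Matrix (Fin e.size) (Fin f.size) R := X.submatrix (Fin.castLE he) (Fin.castLE hf)
    let y' : Matrix (Fin f.size) (Fin e.size) R := Y.submatrix (Fin.castLE hf) (Fin.castLE he)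
    have hX : rcorner x' = X := by
      ext i j
      unfold rcorner
      simp only [Matrix.of_apply]
      split_ifs with h
      · rfl
      · by_cases hi : i.1 < e.size
        · have hj : ¬ j.1 < f.size := fun hj => h ⟨hi, hj⟩
          exact (hGcol (E * x) i j hj).symm
        · have := hErow (x * G) i j hi
          rw [← Matrix.mul_assoc] at this
          exact this.symm
    have hY : rcorner y' = Y := by
      ext i j
      unfold rcorner
      simp only [Matrix.of_apply]
      split_ifs with h
      · rfl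
      · by_cases hi : i.1 < f.size
        · have hj : ¬ j.1 < e.size := fun hj => h ⟨hi, hj⟩
          exact (hEcol (G * y) i j hj).symm
        · have := hGrow (y * E) i j hi
          rw [← Matrix.mul_assoc] at this
          exact this.symm
    refine ⟨x', y', ?_, ?_⟩
    · have h3 : (rcorner (x' * y') : Matrix (Fin N) (Fin N) R) = rcorner e.mat := by
        rw [← rcorner_mul hf, hX, hY, hXY]
      rw [← rcorner_restrict he he (x' * y'), h3, rcorner_restrict he he]
    · have h3 : (rcorner (y' * x') : Matrix (Fin N) (Fin N) R) = rcorner f.mat := by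
        rw [← rcorner_mul he, hX, hY, hYX]
      rw [← rcorner_restrict hf hf (y' * x'), h3, rcorner_restrict hf hf]
  · rintro ⟨x, y, h1, h2⟩
    refine ⟨max e.size f.size, le_max_left _ _, le_max_right _ _, rcorner x, rcorner y, ?_, ?_⟩
    · rw [rcorner_mul (le_max_right _ _), h1]; rfl
    · rw [rcorner_mul (le_max_left _ _), h2]; rfl

/-- Equivalence of idempotent matrices is an equivalence relation. -/
instance idemSetoid (R : Type u) [NonUnitalRing R] : Setoid (Idem R) where
  r := Idem.Equiv
  iseqv :=
    { refl := fun e => (Idem.equiv_iff e e).mpr (RectEq.refl e.idem)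
      symm := fun {e f} h => (Idem.equiv_iff f e).mpr ((Idem.equiv_iff e f).mp h).symm
      trans := fun {e f g} h h' => (Idem.equiv_iff e g).mpr
        (RectEq.trans e.idem g.idem ((Idem.equiv_iff e f).mp h) ((Idem.equiv_iff f g).mp h')) }

theorem equiv_def (e f : Idem R) : e ≈ f ↔ RectEq e.mat f.mat := Idem.equiv_iff e f

theorem blocks_idem {m n : Type*} [Fintype m] [Fintype n] {e : Matrix m m R} {f : Matrix n n R}
    (he : e * e = e) (hf : f * f = f) :
    Matrix.fromBlocks e 0 0 f * Matrix.fromBlocks e 0 0 f = Matrix.fromBlocks e 0 0 f := by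
  rw [Matrix.fromBlocks_multiply]
  simp [he, hf]

theorem Idem.sum_rect (e f : Idem R) :
    RectEq (Matrix.fromBlocks e.mat 0 0 f.mat) (Idem.sum e f).mat :=
  RectEq.reindex (blocks_idem e.idem f.idem) _

theorem RectEq.blocks_comm {m n : Type*} [Fintype m] [Fintype n] {e : Matrix m m R}
    {f : Matrix n n R} (he : e * e = e) (hf : f * f = f) :
    RectEq (Matrix.fromBlocks e 0 0 f) (Matrix.fromBlocks f 0 0 e) := by
  have h := RectEq.reindex (blocks_idem he hf) (Equiv.sumComm m n)
  convert h using 1
  ext i j
  rcases i with i | i <;> rcases j with j | j <;> rfl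

theorem RectEq.blocks_assoc {l m n : Type*} [Fintype l] [Fintype m] [Fintype n]
    {e : Matrix l l R} {f : Matrix m m R} {g : Matrix n n R}
    (he : e * e = e) (hf : f * f = f) (hg : g * g = g) :
    RectEq (Matrix.fromBlocks (Matrix.fromBlocks e 0 0 f) 0 0 g)
      (Matrix.fromBlocks e 0 0 (Matrix.fromBlocks f 0 0 g)) := by
  have h := RectEq.reindex (blocks_idem (blocks_idem he hf) hg) (Equiv.sumAssoc l m n)
  convert h using 1
  ext i j
  rcases i with i | i | i <;> rcases j with j | j | j <;> rfl

theorem RectEq.blocks_zero {m n : Type*} [Fintype m] [Fintype n] [IsEmpty n] {e : Matrix m m R}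
    (he : e * e = e) (z : Matrix n n R) : RectEq (Matrix.fromBlocks e 0 0 z) e := by
  refine ⟨Matrix.of (fun i j => Sum.elim (fun i' => e i' j) (fun i' => isEmptyElim i') i),
    Matrix.of (fun i j => Sum.elim (fun j' => e i j') (fun j' => isEmptyElim j') j), ?_, ?_⟩
  · ext i j
    rcases i with i | i
    · rcases j with j | j
      · rw [Matrix.mul_apply]
        simp only [Matrix.of_apply, Sum.elim_inl, Matrix.fromBlocks_apply₁₁]
        rw [← Matrix.mul_apply, he]
      · exact isEmptyElim j
    · exact isEmptyElim i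
  · ext i j
    rw [Matrix.mul_apply, Fintype.sum_sum_type]
    simp only [Matrix.of_apply, Sum.elim_inl]
    rw [← Matrix.mul_apply, he]
    simp

end Equiv

/-- The nonstable K-theory monoid of a ring. -/
def VMon (R : Type u) [NonUnitalRing R] : Type u := Quotient (idemSetoid R)

section VMon

variable {R : Type u} [NonUnitalRing R]

/-- The class of an idempotent matrix. -/
def VMon.cls (e : Idem R) : VMon R := Quotient.mk _ e

theorem VMon.cls_eq {e f : Idem R} : VMon.cls e = VMon.cls f ↔ RectEq e.mat f.mat := by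
  exact (Quotient.eq (r := idemSetoid R)).trans (equiv_def e f)

theorem Idem.sum_congr {e e' f f' : Idem R} (h : RectEq e.mat e'.mat) (h' : RectEq f.mat f'.mat) :
    RectEq (Idem.sum e f).mat (Idem.sum e' f').mat := by
  refine RectEq.trans (Idem.sum e f).idem (Idem.sum e' f').idem (Idem.sum_rect e f).symm ?_
  exact RectEq.trans (blocks_idem e.idem f.idem) (Idem.sum e' f').idem
    (RectEq.fromBlocks h h') (Idem.sum_rect e' f')

instance : Add (VMon R) where
  add := Quotient.map₂ Idem.sum (by
    intro e e' h f f' h'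
    rw [equiv_def] at h h' ⊢
    exact Idem.sum_congr h h')

instance : Zero (VMon R) where
  zero := VMon.cls (Idem.zero R)

theorem VMon.cls_add (e f : Idem R) : VMon.cls e + VMon.cls f = VMon.cls (Idem.sum e f) := rfl

theorem VMon.zero_def : (0 : VMon R) = VMon.cls (Idem.zero R) := rfl

theorem VMon.ind {P : VMon R → Prop} (h : ∀ e, P (VMon.cls e)) (x : VMon R) : P x :=
  Quotient.inductionOn x h

theorem VMon.add_comm' (x y : VMon R) : x + y = y + x := by
  induction x using VMon.ind with
  | h e =>
  induction y using VMon.ind with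
  | h f =>
  rw [VMon.cls_add, VMon.cls_add, VMon.cls_eq]
  refine RectEq.trans (Idem.sum e f).idem (Idem.sum f e).idem (Idem.sum_rect e f).symm ?_
  exact RectEq.trans (blocks_idem e.idem f.idem) (Idem.sum f e).idem
    (RectEq.blocks_comm e.idem f.idem) (Idem.sum_rect f e)

theorem VMon.add_assoc' (x y z : VMon R) : x + y + z = x + (y + z) := by
  induction x using VMon.ind with
  | h e =>
  induction y using VMon.ind with
  | h f =>
  induction z using VMon.ind with
  | h g =>
  simp only [VMon.cls_add]
  rw [VMon.cls_eq]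
  have hef := blocks_idem e.idem f.idem
  have hfg := blocks_idem f.idem g.idem
  have t1 : RectEq (Idem.sum (Idem.sum e f) g).mat
      (Matrix.fromBlocks (Matrix.fromBlocks e.mat 0 0 f.mat) 0 0 g.mat) := by
    refine RectEq.trans (Idem.sum (Idem.sum e f) g).idem (blocks_idem hef g.idem)
      (Idem.sum_rect (Idem.sum e f) g).symm ?_
    exact RectEq.fromBlocks (Idem.sum_rect e f).symm (RectEq.refl g.idem)
  have t2 : RectEq (Matrix.fromBlocks e.mat 0 0 (Matrix.fromBlocks f.mat 0 0 g.mat))
      (Idem.sum e (Idem.sum f g)).mat := by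
    refine RectEq.trans (blocks_idem e.idem hfg) (Idem.sum e (Idem.sum f g)).idem ?_
      (Idem.sum_rect e (Idem.sum f g))
    exact RectEq.fromBlocks (RectEq.refl e.idem) (Idem.sum_rect f g)
  refine RectEq.trans (Idem.sum (Idem.sum e f) g).idem (Idem.sum e (Idem.sum f g)).idem t1 ?_
  exact RectEq.trans (blocks_idem hef g.idem) (Idem.sum e (Idem.sum f g)).idem
    (RectEq.blocks_assoc e.idem f.idem g.idem) t2

theorem VMon.add_zero' (x : VMon R) : x + 0 = x := by
  induction x using VMon.ind with
  | h e =>
  rw [VMon.zero_def, VMon.cls_add, VMon.cls_eq]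
  refine RectEq.trans (Idem.sum e (Idem.zero R)).idem e.idem
    (Idem.sum_rect e (Idem.zero R)).symm ?_
  have : IsEmpty (Fin (Idem.zero R).size) := inferInstanceAs (IsEmpty (Fin 0))
  exact RectEq.blocks_zero e.idem _

instance : AddCommMonoid (VMon R) where
  add_assoc := VMon.add_assoc'
  zero_add x := by rw [VMon.add_comm', VMon.add_zero']
  add_zero := VMon.add_zero'
  add_comm := VMon.add_comm'
  nsmul := nsmulRec

theorem VMon.cls_eq_zero {e : Idem R} (h : VMon.cls e = 0) : e.mat = 0 := by
  rw [VMon.zero_def, VMon.cls_eq] at h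
  obtain ⟨x, y, h1, h2⟩ := h
  have : IsEmpty (Fin (Idem.zero R).size) := inferInstanceAs (IsEmpty (Fin 0))
  rw [← h1]
  ext i j
  rw [Matrix.mul_apply]
  simp

theorem VMon.conical (x y : VMon R) (h : x + y = 0) : x = 0 ∧ y = 0 := by
  have key : ∀ x y : VMon R, x + y = 0 → x = 0 := by
    intro x y h
    induction x using VMon.ind with
    | h e =>
    induction y using VMon.ind with
    | h f =>
    rw [VMon.cls_add] at h
    have h1 := VMon.cls_eq_zero h
    have h2 : e.mat = 0 := by
      ext i j
      have h3 := congrFun (congrFun h1 (Fin.castAdd f.size i)) (Fin.castAdd f.size j)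
      simp only [Idem.sum, Matrix.reindex_apply, Matrix.submatrix_apply,
        finSumFinEquiv_symm_apply_castAdd, Matrix.fromBlocks_apply₁₁] at h3
      exact h3
    rw [VMon.zero_def, VMon.cls_eq, h2]
    exact ⟨0, 0, by simp, by ext i j; exact Fin.elim0 i⟩
  exact ⟨key x y h, key y x (by rw [VMon.add_comm']; exact h)⟩

/-- The monoid homomorphism induced by a ring homomorphism. -/
def VMon.map {R S : Type u} [NonUnitalRing R] [NonUnitalRing S] (φ : R →ₙ+* S) :
    VMon R →+ VMon S where
  toFun := Quotient.map (Idem.map φ) (by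
    rintro e f h
    rw [equiv_def] at h ⊢
    exact h.map φ)
  map_zero' := by
    change VMon.cls (Idem.map φ (Idem.zero R)) = VMon.cls (Idem.zero S)
    rw [VMon.cls_eq]
    exact ⟨0, 0, by ext i j; exact Fin.elim0 i, by ext i j; exact Fin.elim0 i⟩
  map_add' := by
    intro x y
    induction x using VMon.ind with
    | h e =>
    induction y using VMon.ind with
    | h f =>
    change VMon.cls (Idem.map φ (Idem.sum e f)) = VMon.cls (Idem.sum (Idem.map φ e) (Idem.map φ f))
    congr 1
    unfold Idem.map Idem.sum
    congr 1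
    ext i j
    simp only [Matrix.map_apply, Matrix.reindex_apply, Matrix.submatrix_apply]
    rcases finSumFinEquiv.symm i with i' | i' <;> rcases finSumFinEquiv.symm j with j' | j' <;>
      simp

theorem VMon.map_cls {R S : Type u} [NonUnitalRing R] [NonUnitalRing S] (φ : R →ₙ+* S)
    (e : Idem R) : VMon.map φ (VMon.cls e) = VMon.cls (Idem.map φ e) := rfl

end VMon

/-- Nonstable K-theory as a functor from rings to conical commutative monoids. -/
def V : Rng.{u} ⥤ CMonC.{u} where
  obj R := ⟨VMon R.carrier, VMon.conical⟩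
  map {R S} φ := VMon.map (R := R.carrier) (S := S.carrier) φ
  map_id R := by
    refine AddMonoidHom.ext fun x => ?_
    induction x using VMon.ind with
    | h e => rfl
  map_comp φ ψ := by
    refine AddMonoidHom.ext fun x => ?_
    induction x using VMon.ind with
    | h e => rfl

section Construction

open Pool.Agent.Lib_helper8.Berg

section Aug

variable (M : Type u) [AddCommMonoid M]

/-- The augmentation of the algebra. -/
noncomputable def augVals : Vals ℚ M ℚ where
  f _ := 0
  e0 := rfl
  ee _ := by simp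
  ea _ _ := by simp
  ae _ _ := by simp
  eb _ _ := by simp
  be _ _ := by simp
  ec _ _ := by simp
  ce _ _ := by simp
  ed _ _ := by simp
  de _ _ := by simp
  ca _ _ := by simp
  db _ _ := by simp
  cb _ _ := by simp
  da _ _ := by simp
  sum _ _ := by simp
  b0 _ := rfl
  d0 _ := rfl
  a0 _ := rfl
  c0 _ := rfl

/-- The augmentation of the algebra. -/
noncomputable def aug : Alg ℚ M →ₐ[ℚ] ℚ := Alg.lift (augVals M)

theorem aug_g (x : Gn M) : aug M (Alg.g ℚ x) = 0 := Alg.lift_g _ _

/-- The augmentation ideal, as a ring without unit. -/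
noncomputable def AugI : NonUnitalSubring (Alg ℚ M) where
  carrier := {r | aug M r = 0}
  add_mem' := by
    intro a b ha hb
    change aug M (a + b) = 0
    rw [map_add, show aug M a = 0 from ha, show aug M b = 0 from hb, add_zero]
  zero_mem' := map_zero _
  neg_mem' := by
    intro a ha
    change aug M (-a) = 0
    rw [map_neg, show aug M a = 0 from ha, neg_zero]
  mul_mem' := by
    intro a b ha hb
    change aug M (a * b) = 0
    rw [map_mul, show aug M a = 0 from ha, zero_mul]

variable {M}

theorem mem_AugI {r : Alg ℚ M} : r ∈ AugI M ↔ aug M r = 0 := Iff.rfl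

/-- The inclusion of the augmentation ideal. -/
noncomputable def incl (M : Type u) [AddCommMonoid M] : AugI M →ₙ+* Alg ℚ M :=
  NonUnitalSubringClass.subtype (AugI M)

theorem incl_injective : Function.Injective (incl M) := Subtype.val_injective

theorem aug_incl (r : AugI M) : aug M (incl M r) = 0 := r.2

/-- Descent of equivalences from the algebra to the augmentation ideal. -/
theorem RectEq.descend {m n : Type*} [Fintype m] [Fintype n] {e : Matrix m m (AugI M)}
    {f : Matrix n n (AugI M)} (he : e * e = e) (hf : f * f = f)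
    (h : RectEq (e.map (incl M)) (f.map (incl M))) : RectEq e f := by
  obtain ⟨x, y, h1, h2⟩ := h
  set E := e.map (incl M) with hE
  set G := f.map (incl M) with hG
  have hEE : E * E = E := by rw [hE, map_mul_map, he]
  have hGG : G * G = G := by rw [hG, map_mul_map, hf]
  have hXmem : ∀ i j, (E * (x * G)) i j ∈ AugI M := by
    intro i j
    rw [mem_AugI, Matrix.mul_apply, map_sum]
    refine Finset.sum_eq_zero fun t _ => ?_
    rw [map_mul, hE, Matrix.map_apply, aug_incl, zero_mul]
  have hYmem : ∀ i j, (G * (y * E)) i j ∈ AugI M := by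
    intro i j
    rw [mem_AugI, Matrix.mul_apply, map_sum]
    refine Finset.sum_eq_zero fun t _ => ?_
    rw [map_mul, hG, Matrix.map_apply, aug_incl, zero_mul]
  let X : Matrix m n (AugI M) := Matrix.of fun i j => ⟨(E * (x * G)) i j, hXmem i j⟩
  let Y : Matrix n m (AugI M) := Matrix.of fun i j => ⟨(G * (y * E)) i j, hYmem i j⟩
  have hX : X.map (incl M) = E * (x * G) := by ext i j; rfl
  have hY : Y.map (incl M) = G * (y * E) := by ext i j; rfl
  refine ⟨X, Y, ?_, ?_⟩
  · ext i j
    have key : (X * Y).map (incl M) = e.map (incl M) := by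
      rw [← map_mul_map, hX, hY, ← hE]
      calc E * (x * G) * (G * (y * E)) = E * x * (G * G) * y * E := by
            simp only [Matrix.mul_assoc]
        _ = E * x * (y * x) * y * E := by rw [hGG, h2]
        _ = E * ((x * y) * (x * y)) * E := by simp only [Matrix.mul_assoc]
        _ = E := by rw [h1, hEE, hEE, hEE]
    have := congrFun (congrFun key i) j
    rw [Matrix.map_apply, Matrix.map_apply] at this
    rw [incl_injective this]
  · ext i j
    have key : (Y * X).map (incl M) = f.map (incl M) := by
      rw [← map_mul_map, hX, hY, ← hG]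
      calc G * (y * E) * (E * (x * G)) = G * y * (E * E) * x * G := by
            simp only [Matrix.mul_assoc]
        _ = G * y * (x * y) * x * G := by rw [hEE, h1]
        _ = G * ((y * x) * (y * x)) * G := by simp only [Matrix.mul_assoc]
        _ = G := by rw [h2, hGG, hGG, hGG]
    have := congrFun (congrFun key i) j
    rw [Matrix.map_apply, Matrix.map_apply] at this
    rw [incl_injective this]

/-- The idempotent of an element, in the augmentation ideal. -/
noncomputable def EI (x : M) : AugI M := ⟨E ℚ x, aug_g M (Gn.e x)⟩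

theorem incl_EI (x : M) : incl M (EI x) = E ℚ x := rfl

theorem EI_mul_EI (x : M) : EI x * EI x = EI x := incl_injective (by
  rw [map_mul, incl_EI, E_mul_E])

/-- The idempotent `1 × 1` matrix of an element. -/
noncomputable def idE (x : M) : Idem (AugI M) where
  size := 1
  mat := Matrix.of fun _ _ => EI x
  idem := by
    ext i j
    rw [Matrix.mul_apply]
    simp [EI_mul_EI]

/-- Diagonal matrices of the special idempotents collapse. -/
theorem diag_collapse (n : ℕ) (x : Fin n → M) :
    RectEq (Matrix.diagonal fun j => E ℚ (x j))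
      (Matrix.of fun _ _ : Fin 1 => E ℚ (∑ j, x j)) := by
  induction n with
  | zero =>
    refine ⟨0, 0, ?_, ?_⟩
    · ext i; exact Fin.elim0 i
    · ext i j
      have : E ℚ (0 : M) = 0 := Alg.e0
      simp [this]
  | succ n ih =>
    obtain ⟨X, Y, h1, h2⟩ := ih (fun j => x j.succ)
    set s := ∑ j : Fin n, x j.succ with hs
    have hsum : ∑ j, x j = x 0 + s := Fin.sum_univ_succ x
    rw [hsum]
    have h2' : ∑ j, Y 0 j * X j 0 = E ℚ s := by
      have := congrFun (congrFun h2 0) 0
      rw [Matrix.mul_apply] at this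
      exact this
    have h1' : ∀ i j, X i 0 * Y 0 j = (Matrix.diagonal fun j => E ℚ (x j.succ)) i j := by
      intro i j
      have := congrFun (congrFun h1 i) j
      rw [Matrix.mul_apply] at this
      simpa using this
    have hXE : ∀ i j, X i 0 * E ℚ s * Y 0 j = (Matrix.diagonal fun j => E ℚ (x j.succ)) i j := by
      intro i j
      rw [← h2', Finset.mul_sum, Finset.sum_mul]
      have h3 : ∀ t ∈ Finset.univ, X i 0 * (Y 0 t * X t 0) * Y 0 j
          = (Matrix.diagonal fun j => E ℚ (x j.succ)) i t
            * (Matrix.diagonal fun j => E ℚ (x j.succ)) t j := by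
        intro t _
        rw [← h1', ← h1']
        simp only [mul_assoc]
      rw [Finset.sum_congr rfl h3, ← Matrix.mul_apply, Matrix.diagonal_mul_diagonal]
      simp only [E_mul_E]
    refine ⟨Matrix.of fun i _ => Fin.cases (Alg.g ℚ (Gn.c (x 0) s))
        (fun i' => X i' 0 * Alg.g ℚ (Gn.d (x 0) s)) i,
      Matrix.of fun _ j => Fin.cases (Alg.g ℚ (Gn.a (x 0) s))
        (fun j' => Alg.g ℚ (Gn.b (x 0) s) * Y 0 j') j, ?_, ?_⟩
    · ext i j
      rw [Matrix.mul_apply]
      simp only [Matrix.of_apply, Finset.univ_unique, Finset.sum_singleton]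
      refine Fin.cases ?_ (fun i' => ?_) i
      · refine Fin.cases ?_ (fun j' => ?_) j
        · simp only [Fin.cases_zero]
          rw [Matrix.diagonal_apply_eq]
          exact Alg.ca (x 0) s
        · simp only [Fin.cases_zero, Fin.cases_succ]
          rw [← mul_assoc, Alg.cb, zero_mul, Matrix.diagonal_apply_ne]
          exact (Fin.succ_ne_zero j').symm
      · refine Fin.cases ?_ (fun j' => ?_) j
        · simp only [Fin.cases_zero, Fin.cases_succ]
          rw [mul_assoc, Alg.da, mul_zero, Matrix.diagonal_apply_ne]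
          exact Fin.succ_ne_zero i'
        · simp only [Fin.cases_succ]
          have e1 : X i' 0 * Alg.g ℚ (Gn.d (x 0) s) * (Alg.g ℚ (Gn.b (x 0) s) * Y 0 j')
              = X i' 0 * E ℚ s * Y 0 j' := by
            rw [mul_assoc, ← mul_assoc (Alg.g ℚ (Gn.d (x 0) s)), Alg.db, ← mul_assoc]
            rfl
          rw [e1, hXE]
          by_cases hij : i' = j'
          · subst hij
            rw [Matrix.diagonal_apply_eq, Matrix.diagonal_apply_eq]
          · rw [Matrix.diagonal_apply_ne _ hij, Matrix.diagonal_apply_ne]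
            intro h
            exact hij (Fin.succ_injective _ h)
    · ext i j
      rw [Matrix.mul_apply]
      simp only [Matrix.of_apply]
      rw [Fin.sum_univ_succ]
      simp only [Fin.cases_zero, Fin.cases_succ]
      have e1 : ∀ t ∈ Finset.univ, Alg.g ℚ (Gn.b (x 0) s) * Y 0 t
          * (X t 0 * Alg.g ℚ (Gn.d (x 0) s))
          = Alg.g ℚ (Gn.b (x 0) s) * (Y 0 t * X t 0) * Alg.g ℚ (Gn.d (x 0) s) := by
        intro t _
        simp only [mul_assoc]
      rw [Finset.sum_congr rfl e1, ← Finset.sum_mul, ← Finset.mul_sum, h2']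
      have e2 : Alg.g ℚ (Gn.b (x 0) s) * E ℚ s = Alg.g ℚ (Gn.b (x 0) s) := Alg.be (x 0) s
      rw [e2]
      exact Alg.sum (x 0) s

/-- Sums of classes of special idempotents. -/
theorem cls_idE_add (x y : M) :
    VMon.cls (idE (x + y)) = VMon.cls (idE x) + VMon.cls (idE y) := by
  rw [VMon.cls_add, VMon.cls_eq]
  refine RectEq.trans (idE (x + y)).idem (Idem.sum (idE x) (idE y)).idem ?_
    (Idem.sum_rect (idE x) (idE y))
  refine ⟨Matrix.of fun _ j => Sum.elim (fun _ => ⟨Alg.g ℚ (Gn.a x y), aug_g M _⟩)
      (fun _ => ⟨Alg.g ℚ (Gn.b x y), aug_g M _⟩) j,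
    Matrix.of fun i _ => Sum.elim (fun _ => ⟨Alg.g ℚ (Gn.c x y), aug_g M _⟩)
      (fun _ => ⟨Alg.g ℚ (Gn.d x y), aug_g M _⟩) i, ?_, ?_⟩
  · ext i j
    rw [Matrix.mul_apply, Fintype.sum_sum_type]
    change ((∑ _t : Fin 1, _) + (∑ _t : Fin 1, _) : AugI M).1 = _
    simp only [Matrix.of_apply, Sum.elim_inl, Sum.elim_inr, Finset.univ_unique,
      Finset.sum_singleton]
    exact Alg.sum x y
  · ext i j
    rw [Matrix.mul_apply]
    change (∑ _t : Fin 1, _ : AugI M).1 = _
    simp only [Matrix.of_apply, Finset.univ_unique, Finset.sum_singleton]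
    rcases i with i | i <;> rcases j with j | j
    · exact Alg.ca x y
    · exact Alg.cb x y
    · exact Alg.da x y
    · exact Alg.db x y

theorem cls_idE_zero : VMon.cls (idE (0 : M)) = 0 := by
  rw [VMon.zero_def, VMon.cls_eq]
  refine ⟨0, 0, ?_, ?_⟩
  · ext i j
    have : E ℚ (0 : M) = 0 := Alg.e0
    rw [Matrix.mul_apply]
    simp only [Matrix.zero_apply, mul_zero, Finset.sum_const_zero]
    exact this.symm
  · ext i j
    exact Fin.elim0 i

/-- The comparison homomorphism. -/
noncomputable def toV (M : Type u) [AddCommMonoid M] : M →+ VMon (AugI M) where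
  toFun x := VMon.cls (idE x)
  map_zero' := cls_idE_zero
  map_add' := cls_idE_add

variable (hM : ∀ x y : M, x + y = 0 → x = 0)

include hM in
theorem toV_injective : Function.Injective (toV M) := by
  intro x y h
  have h1 : RectEq (Matrix.of fun _ _ : Fin 1 => EI x) (Matrix.of fun _ _ : Fin 1 => EI y) :=
    VMon.cls_eq.mp h
  obtain ⟨u, v, h2, h3⟩ := h1.map (incl M)
  refine E_inj hM ℚ (u 0 0) (v 0 0) ?_ ?_
  · have := congrFun (congrFun h2 0) 0
    rw [Matrix.mul_apply] at this
    change ∑ t : Fin 1, u 0 t * v t 0 = E ℚ x at this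
    simpa using this
  · have := congrFun (congrFun h3 0) 0
    rw [Matrix.mul_apply] at this
    change ∑ t : Fin 1, v 0 t * u t 0 = E ℚ y at this
    simpa using this

include hM in
theorem toV_surjective : Function.Surjective (toV M) := by
  classical
  intro z
  induction z using VMon.ind with
  | h e =>
  have hE : (e.mat.map (incl M)) * (e.mat.map (incl M)) = e.mat.map (incl M) := by
    rw [map_mul_map, e.idem]
  obtain ⟨J, _, _, b, X, Y, h1, h2⟩ := exists_diag hM ℚ (e.mat.map (incl M)) hE
  set D : Matrix J J (Alg ℚ M) := Matrix.diagonal (fun j => (algFrame hM ℚ).e (b j)) with hD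
  have hDD : D * D = D := by
    rw [hD, Matrix.diagonal_mul_diagonal]
    simp only [Frame.e_mul_e]
  have hD2 : Y * ((e.mat.map (incl M)) * X) = D := by
    calc Y * ((e.mat.map (incl M)) * X) = Y * ((X * Y) * X) := by rw [h1]
      _ = (Y * X) * (Y * X) := by simp only [Matrix.mul_assoc]
      _ = D := by rw [h2, hDD]
  have haug : ∀ j, aug M ((algFrame hM ℚ).e (b j)) = 0 := by
    intro j
    have h3 := congrFun (congrFun hD2 j) j
    rw [hD, Matrix.diagonal_apply_eq] at h3
    rw [← h3, Matrix.mul_apply, map_sum]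
    refine Finset.sum_eq_zero fun t _ => ?_
    rw [map_mul, Matrix.mul_apply, map_sum]
    have : ∑ s, aug M ((e.mat.map (incl M)) t s * X s j) = 0 := by
      refine Finset.sum_eq_zero fun s _ => ?_
      rw [map_mul, Matrix.map_apply, aug_incl, zero_mul]
    rw [this, mul_zero]
  have hex : ∀ j, ∃ x : M, (algFrame hM ℚ).e (b j) = E ℚ x := by
    intro j
    have h4 := haug j
    cases hb : b j with
    | star =>
      rw [hb, algFrame_star, map_one] at h4
      exact absurd h4 one_ne_zero
    | p x hx => exact ⟨x, rfl⟩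
    | q x hx =>
      rw [hb, algFrame_q, map_sub, map_one] at h4
      have h5 : aug M (E ℚ x) = 0 := aug_g M (Gn.e x)
      rw [h5, sub_zero] at h4
      exact absurd h4 one_ne_zero
  choose x hx using hex
  let σ := Fintype.equivFin J
  refine ⟨∑ i, x (σ.symm i), ?_⟩
  change VMon.cls (idE _) = VMon.cls e
  rw [VMon.cls_eq]
  refine RectEq.descend (idE _).idem e.idem ?_
  have t1 : RectEq (e.mat.map (incl M)) D := ⟨X, Y, h1, h2⟩
  have t2 : RectEq D (Matrix.diagonal fun i => E ℚ (x (σ.symm i))) := by
    have h := RectEq.reindex hDD σ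
    convert h using 1
    ext i j
    rw [Matrix.reindex_apply, Matrix.submatrix_apply, hD, Matrix.diagonal_apply,
      Matrix.diagonal_apply]
    by_cases hij : i = j
    · subst hij
      rw [if_pos rfl, if_pos rfl, hx]
    · rw [if_neg hij, if_neg (fun h => hij (σ.symm.injective h))]
  have t3 := diag_collapse (Fintype.card J) (fun i => x (σ.symm i))
  have hE1 : ∀ y : M, (Matrix.of fun _ _ : Fin 1 => E ℚ y) * (Matrix.of fun _ _ : Fin 1 => E ℚ y)
      = Matrix.of fun _ _ : Fin 1 => E ℚ y := by
    intro y
    ext i j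
    rw [Matrix.mul_apply]
    simp [E_mul_E]
  exact (t1.trans hE (hE1 _) (t2.trans hDD (hE1 _) t3)).symm

end Aug

/-- Functoriality on generators. -/
def gnMap {M N : Type u} (f : M → N) : Gn M → Gn N
  | Gn.e x => Gn.e (f x)
  | Gn.a x y => Gn.a (f x) (f y)
  | Gn.b x y => Gn.b (f x) (f y)
  | Gn.c x y => Gn.c (f x) (f y)
  | Gn.d x y => Gn.d (f x) (f y)

/-- Functoriality of the algebra. -/
noncomputable def algVals {M N : Type u} [AddCommMonoid M] [AddCommMonoid N] (f : M →+ N) :
    Vals ℚ M (Alg ℚ N) where
  f x := Alg.g ℚ (gnMap f x)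
  e0 := by
    change Alg.g ℚ (Gn.e (f 0)) = 0
    rw [map_zero]; exact Alg.e0
  ee x := Alg.ee (f x)
  ea x y := by
    change Alg.g ℚ (Gn.e (f (x + y))) * _ = _
    rw [map_add]; exact Alg.ea (f x) (f y)
  ae x y := Alg.ae (f x) (f y)
  eb x y := by
    change Alg.g ℚ (Gn.e (f (x + y))) * _ = _
    rw [map_add]; exact Alg.eb (f x) (f y)
  be x y := Alg.be (f x) (f y)
  ec x y := Alg.ec (f x) (f y)
  ce x y := by
    change _ * Alg.g ℚ (Gn.e (f (x + y))) = _
    rw [map_add]; exact Alg.ce (f x) (f y)
  ed x y := Alg.ed (f x) (f y)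
  de x y := by
    change _ * Alg.g ℚ (Gn.e (f (x + y))) = _
    rw [map_add]; exact Alg.de (f x) (f y)
  ca x y := Alg.ca (f x) (f y)
  db x y := Alg.db (f x) (f y)
  cb x y := Alg.cb (f x) (f y)
  da x y := Alg.da (f x) (f y)
  sum x y := by
    change _ = Alg.g ℚ (Gn.e (f (x + y)))
    rw [map_add]; exact Alg.sum (f x) (f y)
  b0 y := by
    change Alg.g ℚ (Gn.b (f 0) (f y)) = _
    rw [map_zero]; exact Alg.b0 (f y)
  d0 y := by
    change Alg.g ℚ (Gn.d (f 0) (f y)) = _
    rw [map_zero]; exact Alg.d0 (f y)
  a0 x := by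
    change Alg.g ℚ (Gn.a (f x) (f 0)) = _
    rw [map_zero]; exact Alg.a0 (f x)
  c0 x := by
    change Alg.g ℚ (Gn.c (f x) (f 0)) = _
    rw [map_zero]; exact Alg.c0 (f x)

/-- Functoriality of the algebra. -/
noncomputable def algMap {M N : Type u} [AddCommMonoid M] [AddCommMonoid N] (f : M →+ N) :
    Alg ℚ M →ₐ[ℚ] Alg ℚ N := Alg.lift (algVals f)

theorem algMap_g {M N : Type u} [AddCommMonoid M] [AddCommMonoid N] (f : M →+ N) (x : Gn M) :
    algMap f (Alg.g ℚ x) = Alg.g ℚ (gnMap f x) := Alg.lift_g _ _

theorem aug_algMap {M N : Type u} [AddCommMonoid M] [AddCommMonoid N] (f : M →+ N)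
    (r : Alg ℚ M) : aug N (algMap f r) = aug M r := by
  have : (aug N).comp (algMap f) = aug M := by
    refine Alg.hom_ext fun x => ?_
    rw [AlgHom.comp_apply, algMap_g, aug_g, aug_g]
  exact DFunLike.congr_fun this r

theorem algMap_id {M : Type u} [AddCommMonoid M] (r : Alg ℚ M) :
    algMap (AddMonoidHom.id M) r = r := by
  have : algMap (AddMonoidHom.id M) = AlgHom.id ℚ (Alg ℚ M) := by
    refine Alg.hom_ext fun x => ?_
    rw [algMap_g]
    cases x <;> rfl
  rw [this]; rfl

theorem algMap_comp {M N P : Type u} [AddCommMonoid M] [AddCommMonoid N] [AddCommMonoid P]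
    (f : M →+ N) (g : N →+ P) (r : Alg ℚ M) :
    algMap (g.comp f) r = algMap g (algMap f r) := by
  have : algMap (g.comp f) = (algMap g).comp (algMap f) := by
    refine Alg.hom_ext fun x => ?_
    rw [AlgHom.comp_apply, algMap_g, algMap_g, algMap_g]
    cases x <;> rfl
  rw [this]; rfl

/-- Functoriality of the augmentation ideal. -/
noncomputable def augMap {M N : Type u} [AddCommMonoid M] [AddCommMonoid N] (f : M →+ N) :
    AugI M →ₙ+* AugI N where
  toFun r := ⟨algMap f r.1, by
    rw [mem_AugI, aug_algMap]; exact r.2⟩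
  map_mul' r s := Subtype.ext (map_mul (algMap f) r.1 s.1)
  map_zero' := Subtype.ext (map_zero (algMap f))
  map_add' r s := Subtype.ext (map_add (algMap f) r.1 s.1)

/-- The realisation functor. -/
noncomputable def Psi : CMonC.{u} ⥤ Rng.{u} where
  obj M := ⟨AugI M.carrier⟩
  map {M N} f := augMap (M := M.carrier) (N := N.carrier) f
  map_id M := by
    refine NonUnitalRingHom.ext fun r => ?_
    exact Subtype.ext (algMap_id r.1)
  map_comp {M N P} f g := by
    refine NonUnitalRingHom.ext fun r => ?_
    exact Subtype.ext (algMap_comp (M := M.carrier) (N := N.carrier) (P := P.carrier) f g r.1)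

/-- The comparison isomorphism. -/
noncomputable def compIso (M : CMonC.{u}) : M ≅ V.obj (Psi.obj M) :=
  let e : M.carrier ≃+ VMon (AugI M.carrier) := AddEquiv.ofBijective (toV M.carrier)
    ⟨toV_injective (fun x y h => (M.conical x y h).1),
      toV_surjective (fun x y h => (M.conical x y h).1)⟩
  { hom := (e : M.carrier →+ VMon (AugI M.carrier))
    inv := (e.symm : VMon (AugI M.carrier) →+ M.carrier)
    hom_inv_id := AddMonoidHom.ext fun x => e.symm_apply_apply x
    inv_hom_id := AddMonoidHom.ext fun x => e.apply_symm_apply x }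

theorem natural_aux {M N : Type u} [AddCommMonoid M] [AddCommMonoid N] (f : M →+ N) (x : M) :
    VMon.cls (idE (f x)) = VMon.cls (Idem.map (augMap f) (idE x)) := by
  congr 1
  unfold Idem.map idE
  congr 1
  ext i j
  change Alg.g ℚ (Gn.e (f x)) = algMap f (Alg.g ℚ (Gn.e x))
  rw [algMap_g]
  rfl

theorem compIso_natural {M N : CMonC.{u}} (f : M ⟶ N) :
    f ≫ (compIso N).hom = (compIso M).hom ≫ V.map (Psi.map f) :=
  AddMonoidHom.ext fun x => natural_aux (M := M.carrier) (N := N.carrier) f x

end Construction

/-- There is a functor from conical commutative monoids, with all monoid homomorphisms, to rings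
whose composite with nonstable K-theory is naturally isomorphic to the identity functor. -/
theorem result : ∃ Ψ : CMonC.{u} ⥤ Rng.{u}, Nonempty (Ψ ⋙ V ≅ 𝟭 CMonC.{u}) :=
  ⟨Psi, ⟨(NatIso.ofComponents (fun M => compIso M) (fun f => compIso_natural f) :
    𝟭 CMonC.{u} ≅ Psi ⋙ V).symm⟩⟩

end Pool.Agent.Results.MP_85b181_al.FunctorialRealization
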